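import Mathlib

set_option autoImplicit false

namespace Pool.Agent.Results.MP_24d225_co.Spiral

open Set Filter Topology Real

/-- Two subsets `A`, `B` of the plane cross properly at `p`: in some chart of the plane around `p`
they become the two coordinate axes. -/
def ProperCrossing (A B : Set ℂ) (p : ℂ) : Prop :=
  ∃ h : OpenPartialHomeomorph ℂ (ℝ × ℝ), p ∈ h.source ∧ h p = (0, 0) ∧
    (∀ q ∈ h.source, q ∈ A ↔ (h q).2 = 0) ∧ (∀ q ∈ h.source, q ∈ B ↔ (h q).1 = 0)

/-- A simple topological graph: a finite simple graph (vertices `V`, edges `E` with their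
unordered pairs of distinct endpoints) drawn in the plane with the usual conditions. -/
structure SimpleTopGraph where
  /-- vertices -/
  V : Type
  /-- edges -/
  E : Type
  /-- finitely many vertices -/
  finV : Fintype V
  /-- finitely many edges -/
  finE : Fintype E
  /-- the pair of endpoints of an edge -/
  ends : E → Sym2 V
  ends_not_diag : ∀ e, ¬ (ends e).IsDiag
  ends_injective : Function.Injective ends
  /-- the point representing a vertex -/
  pos : V → ℂ
  pos_injective : Function.Injective pos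
  /-- the arc representing an edge -/
  arc : E → Set ℂ
  isArc : ∀ e, ∃ γ : C(unitInterval, ℂ), Function.Injective γ ∧ Set.range γ = arc e ∧
    s(γ 0, γ 1) = (ends e).map pos
  no_vertex : ∀ e v, pos v ∈ arc e → v ∈ ends e
  inter_subsingleton : ∀ e f, e ≠ f → (arc e ∩ arc f).Subsingleton
  common : ∀ e f p, e ≠ f → p ∈ arc e → p ∈ arc f →
    (∃ v, v ∈ ends e ∧ v ∈ ends f ∧ p = pos v) ∨ ProperCrossing (arc e) (arc f) p
  no_triple : ∀ e f g p, e ≠ f → f ≠ g → e ≠ g → p ∈ arc e → p ∈ arc f → p ∈ arc g →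
    p ∈ Set.range pos

attribute [instance] SimpleTopGraph.finV SimpleTopGraph.finE

namespace SimpleTopGraph

/-- the underlying abstract graph -/
def graph (T : SimpleTopGraph) : SimpleGraph T.V where
  Adj u v := ∃ e, T.ends e = s(u, v)
  symm := ⟨by
    rintro u v ⟨e, he⟩
    exact ⟨e, by rw [he, Sym2.eq_swap]⟩⟩
  loopless := ⟨by
    rintro u ⟨e, he⟩
    exact T.ends_not_diag e (by rw [he]; exact Sym2.mk_isDiag_iff.mpr rfl)⟩

/-- all points of the drawing -/
def drawing (T : SimpleTopGraph) : Set ℂ := (⋃ e, T.arc e) ∪ Set.range T.pos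

/-- the vertices of the planarization: the vertices of the graph and the crossing points -/
def nodes (T : SimpleTopGraph) : Set ℂ :=
  Set.range T.pos ∪ {p | ∃ e f, e ≠ f ∧ p ∈ T.arc e ∧ p ∈ T.arc f}

/-- the faces of the planarization: the connected components of the complement of the drawing -/
def IsFace (T : SimpleTopGraph) (F : Set ℂ) : Prop :=
  ∃ z ∈ (T.drawing)ᶜ, F = connectedComponentIn (T.drawing)ᶜ z

/-- the edges of the planarization (without their endpoints): the connected components of the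
arcs minus the vertices of the planarization -/
def IsSegment (T : SimpleTopGraph) (σ : Set ℂ) : Prop :=
  ∃ e, ∃ q ∈ T.arc e \ T.nodes, σ = connectedComponentIn (T.arc e \ T.nodes) q

/-- the dual graph of the planarization: two distinct faces are adjacent when some edge of the
planarization lies on the boundary of both -/
def dual (T : SimpleTopGraph) : SimpleGraph {F : Set ℂ // T.IsFace F} where
  Adj F F' := F ≠ F' ∧ ∃ σ, T.IsSegment σ ∧ σ ⊆ frontier F.1 ∧ σ ⊆ frontier F'.1
  symm := ⟨by
    rintro F F' ⟨h, σ, h1, h2, h3⟩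
    exact ⟨h.symm, σ, h1, h3, h2⟩⟩
  loopless := ⟨by
    rintro F ⟨h, _⟩
    exact h rfl⟩

end SimpleTopGraph

/-! ### Polar coordinates -/

/-- the point with modulus `exp (-s)` and angle `θ` -/
noncomputable def P (s θ : ℝ) : ℂ := Complex.exp (((-s : ℝ) : ℂ) + ((θ : ℝ) : ℂ) * Complex.I)

/-- minus the logarithm of the modulus -/
noncomputable def sc (z : ℂ) : ℝ := -Real.log ‖z‖

/-- the angle in `(0, 2π]` -/
noncomputable def ang (z : ℂ) : ℝ := Complex.arg (-z) + π

/-- the coordinate constant on the turns of the spiral -/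
noncomputable def vv (z : ℂ) : ℝ := sc z - ang z / (2 * π)

lemma continuous_P : Continuous (fun p : ℝ × ℝ => P p.1 p.2) := by
  unfold P
  fun_prop

lemma norm_P (s θ : ℝ) : ‖P s θ‖ = Real.exp (-s) := by
  unfold P
  rw [Complex.norm_exp]
  congr 1
  simp

lemma P_ne_zero (s θ : ℝ) : P s θ ≠ 0 := Complex.exp_ne_zero _

lemma sc_P (s θ : ℝ) : sc (P s θ) = s := by
  unfold sc
  rw [norm_P, Real.log_exp]; ring

lemma neg_P (s θ : ℝ) : - P s θ = P s (θ - π) := by
  unfold P
  have : (((-s : ℝ) : ℂ) + (((θ - π : ℝ)) : ℂ) * Complex.I)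
      = (((-s : ℝ) : ℂ) + ((θ : ℝ) : ℂ) * Complex.I) - π * Complex.I := by
    push_cast; ring
  rw [this, Complex.exp_sub, Complex.exp_pi_mul_I, div_neg, div_one]

lemma ang_P {s θ : ℝ} (h0 : 0 < θ) (h1 : θ ≤ 2 * π) : ang (P s θ) = θ := by
  unfold ang
  rw [neg_P]
  have h2 : Complex.arg (P s (θ - π)) = θ - π := by
    rw [← Complex.log_im]
    unfold P
    rw [Complex.log_exp]
    · simp
    · simp; linarith
    · simp; linarith
  rw [h2]; ring

lemma vv_P {s θ : ℝ} (h0 : 0 < θ) (h1 : θ ≤ 2 * π) : vv (P s θ) = s - θ / (2 * π) := by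
  unfold vv
  rw [sc_P, ang_P h0 h1]

lemma ang_pos (z : ℂ) : 0 < ang z := by
  unfold ang
  have := Complex.neg_pi_lt_arg (-z)
  linarith

lemma ang_le (z : ℂ) : ang z ≤ 2 * π := by
  unfold ang
  have := Complex.arg_le_pi (-z)
  linarith

lemma P_polar {z : ℂ} (hz : z ≠ 0) : P (sc z) (ang z) = z := by
  have h1 : P (sc z) (ang z) = - P (sc z) (Complex.arg (-z)) := by
    rw [neg_P]
    have h2 : ang z = (Complex.arg (-z) - π) + 2 * π := by unfold ang; ring
    rw [h2]
    unfold P
    have : (((-sc z : ℝ) : ℂ) + (((Complex.arg (-z) - π) + 2 * π : ℝ) : ℂ) * Complex.I)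
      = (((-sc z : ℝ) : ℂ) + (((Complex.arg (-z) - π) : ℝ) : ℂ) * Complex.I) + 2 * π * Complex.I := by
      push_cast; ring
    rw [this, Complex.exp_add, Complex.exp_two_pi_mul_I, mul_one]
  rw [h1]
  unfold P sc
  rw [neg_neg, Complex.exp_add, ← Complex.ofReal_exp, Real.exp_log (norm_pos_iff.mpr hz)]
  have := Complex.norm_mul_exp_arg_mul_I (-z)
  rw [norm_neg] at this
  rw [this, neg_neg]

lemma P_eq_iff (s θ s' θ' : ℝ) : P s θ = P s' θ' ↔ s = s' ∧ ∃ k : ℤ, θ = θ' + 2 * π * k := by
  unfold P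
  rw [Complex.exp_eq_exp_iff_exists_int]
  constructor
  · rintro ⟨k, hk⟩
    have hre := congrArg Complex.re hk
    have him := congrArg Complex.im hk
    simp at hre him
    exact ⟨hre, k, by rw [him]; ring⟩
  · rintro ⟨rfl, k, rfl⟩
    exact ⟨k, by push_cast; ring⟩

lemma P_add_int (s θ : ℝ) (k : ℤ) : P s (θ + 2 * π * k) = P s θ := by
  rw [P_eq_iff]
  exact ⟨rfl, k, rfl⟩

lemma vv_lt {z : ℂ} : vv z < sc z := by
  unfold vv
  have : 0 < ang z / (2 * π) := div_pos (ang_pos z) (by positivity)
  linarith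

lemma le_vv {z : ℂ} : sc z - 1 ≤ vv z := by
  unfold vv
  have : ang z / (2 * π) ≤ 1 := by rw [div_le_one (by positivity)]; exact ang_le z
  linarith

/-- if the coordinate `vv` is an integer, the point is on the (infinite) spiral -/
lemma on_spiral_of_vv {z : ℂ} (hz : z ≠ 0) (k : ℤ) (hk : vv z = k) :
    P (sc z) (2 * π * sc z) = z := by
  have h1 : ang z = 2 * π * sc z + 2 * π * ((-k : ℤ) : ℝ) := by
    have : ang z / (2 * π) = sc z - k := by unfold vv at hk; linarith
    rw [div_eq_iff (by positivity)] at this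
    rw [this]; push_cast; ring
  conv_rhs => rw [← P_polar hz]
  rw [h1, P_add_int]

lemma continuousAt_sc {z : ℂ} (hz : z ≠ 0) : ContinuousAt sc z := by
  unfold sc
  exact ((Real.continuousAt_log (norm_ne_zero_iff.mpr hz)).comp continuous_norm.continuousAt).neg

lemma continuousAt_ang {z : ℂ} (hz : -z ∈ Complex.slitPlane) : ContinuousAt ang z := by
  unfold ang
  exact ((Complex.continuousAt_arg hz).comp continuous_neg.continuousAt).add continuousAt_const

/-- a non zero point is either a positive real or in the complement of the cut -/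
lemma pos_real_or (z : ℂ) (hz : z ≠ 0) : P (sc z) 0 = z ∨ (-z ∈ Complex.slitPlane ∧ ang z < 2 * π) := by
  by_cases h : ang z = 2 * π
  · left
    conv_rhs => rw [← P_polar hz, h]
    have := P_add_int (sc z) 0 1
    rw [← this]; congr 1; push_cast; ring
  · right
    have hlt : ang z < 2 * π := lt_of_le_of_ne (ang_le z) h
    refine ⟨?_, hlt⟩
    rw [Complex.mem_slitPlane_iff_arg]
    refine ⟨?_, neg_ne_zero.mpr hz⟩
    intro h2
    apply h
    unfold ang; rw [h2]; ring

/-! ### Level function and the regions -/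

/-- the level of a point: the number of nested closed curves around it -/
noncomputable def lev (n : ℕ) (z : ℂ) : ℕ := by
  classical
  exact ((Finset.range n).filter (fun k : ℕ => z = 0 ∨ (k : ℝ) < vv z)).card

/-- the regions that will turn out to be the faces -/
def U (n j : ℕ) : Set ℂ :=
  if j = 0 then {z | z ≠ 0 ∧ sc z < 0} ∪ (fun p : ℝ × ℝ => P p.1 p.2) '' {p | 0 < p.2 ∧ p.2 < 2 * π ∧ p.1 - p.2 / (2 * π) < 0}
  else if j = n then Metric.ball 0 (Real.exp (-n)) ∪ (fun p : ℝ × ℝ => P p.1 p.2) '' {p | 0 < p.2 ∧ p.2 < 2 * π ∧ (n : ℝ) - 1 < p.1 - p.2 / (2 * π)}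
  else (fun p : ℝ × ℝ => P p.1 p.2) '' {p | 0 < p.2 ∧ p.2 < 2 * π ∧ (j : ℝ) - 1 < p.1 - p.2 / (2 * π) ∧ p.1 - p.2 / (2 * π) < j}

/-- the drawing as a set -/
def Dr (n : ℕ) : Set ℂ := {z | ∃ x : ℝ, 0 ≤ x ∧ x ≤ n ∧ (z = P x 0 ∨ z = P x (2 * π * x))}

lemma lev_eq_of {n : ℕ} {z : ℂ} {j : ℕ} (hj : j ≤ n) (h : ∀ k < n, ((z = 0 ∨ (k : ℝ) < vv z) ↔ k < j)) :
    lev n z = j := by
  classical
  unfold lev
  have : (Finset.range n).filter (fun k : ℕ => z = 0 ∨ (k : ℝ) < vv z) = Finset.range j := by
    ext k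
    simp only [Finset.mem_filter, Finset.mem_range]
    constructor
    · rintro ⟨h1, h2⟩; exact (h k h1).mp h2
    · intro h1
      have : k < n := by omega
      exact ⟨this, (h k this).mpr h1⟩
  have e : (Finset.filter (fun k : ℕ => z = 0 ∨ (k : ℝ) < vv z) (Finset.range n)).card = j := by
    rw [this, Finset.card_range]
  convert e

lemma lev_zero_of {n : ℕ} {z : ℂ} (hz : z ≠ 0) (h : vv z < 0) : lev n z = 0 := by
  apply lev_eq_of (Nat.zero_le _)
  intro k _
  constructor
  · rintro (h1 | h1)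
    · exact absurd h1 hz
    · have : (0:ℝ) ≤ k := by positivity
      linarith
  · intro h1; omega

lemma lev_n_of {n : ℕ} {z : ℂ} (h : z = 0 ∨ (n:ℝ) - 1 < vv z) : lev n z = n := by
  apply lev_eq_of le_rfl
  intro k hk
  constructor
  · intro _; exact hk
  · intro _
    rcases h with h | h
    · exact Or.inl h
    · right
      have : (k:ℝ) + 1 ≤ n := by exact_mod_cast hk
      linarith

lemma lev_mid_of {n j : ℕ} {z : ℂ} (hz : z ≠ 0) (hj : j ≤ n) (h1 : (j:ℝ) - 1 < vv z) (h2 : vv z < j) :
    lev n z = j := by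
  apply lev_eq_of hj
  intro k hk
  constructor
  · rintro (h | h)
    · exact absurd h hz
    · have : (k:ℝ) < j := by linarith
      exact_mod_cast this
  · intro h
    right
    have : (k:ℝ) + 1 ≤ j := by exact_mod_cast h
    linarith

lemma lev_U {n j : ℕ} (hj : j ≤ n) {z : ℂ} (hz : z ∈ U n j) : lev n z = j := by
  unfold U at hz
  split_ifs at hz with h0 h1
  · subst h0
    rcases hz with ⟨h1, h2⟩ | ⟨⟨s, θ⟩, ⟨h1, h2, h3⟩, rfl⟩
    · apply lev_zero_of h1
      linarith [vv_lt (z := z)]
    · apply lev_zero_of (P_ne_zero _ _)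
      rw [vv_P h1 h2.le]; exact h3
  · subst h1
    rcases hz with h1 | ⟨⟨s, θ⟩, ⟨h1, h2, h3⟩, rfl⟩
    · apply lev_n_of
      by_cases hz0 : z = 0
      · exact Or.inl hz0
      · right
        rw [mem_ball_zero_iff] at h1
        have : (j:ℝ) < sc z := by
          unfold sc
          have := (Real.log_lt_iff_lt_exp (norm_pos_iff.mpr hz0)).mpr h1
          linarith
        linarith [le_vv (z := z)]
    · apply lev_n_of
      right; rw [vv_P h1 h2.le]; exact h3
  · obtain ⟨⟨s, θ⟩, ⟨h2, h3, h4, h5⟩, rfl⟩ := hz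
    apply lev_mid_of (P_ne_zero _ _) hj
    · rw [vv_P h2 h3.le]; exact h4
    · rw [vv_P h2 h3.le]; exact h5

/-- points of the drawing that are not positive reals have integral `vv` between `0` and `n-1` -/
lemma Dr_cases {n : ℕ} {z : ℂ} (hz : z ∈ Dr n) :
    z ≠ 0 ∧ 0 ≤ sc z ∧ sc z ≤ n ∧ (ang z = 2 * π ∨ ∃ k : ℤ, vv z = k) := by
  obtain ⟨x, hx0, hxn, h | h⟩ := hz
  · have hs : sc z = x := by rw [h, sc_P]
    refine ⟨by rw [h]; exact P_ne_zero _ _, by rw [hs]; exact hx0, by rw [hs]; exact hxn, Or.inl ?_⟩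
    have : z = P x (2 * π) := by
      rw [h, P_eq_iff]; exact ⟨rfl, -1, by push_cast; ring⟩
    rw [this, ang_P (by positivity) le_rfl]
  · have hs : sc z = x := by rw [h, sc_P]
    have hz0 : z ≠ 0 := by rw [h]; exact P_ne_zero _ _
    refine ⟨hz0, by rw [hs]; exact hx0, by rw [hs]; exact hxn, Or.inr ?_⟩
    have h1 := P_polar hz0
    rw [hs] at h1
    rw [← h1, P_eq_iff] at h
    obtain ⟨_, k, hk⟩ := h
    refine ⟨-k, ?_⟩
    unfold vv
    rw [hs, hk]
    field_simp
    push_cast
    ring

lemma U_subset {n j : ℕ} (hj : j ≤ n) : U n j ⊆ (Dr n)ᶜ := by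
  intro z hz hD
  obtain ⟨hz0, hs0, hsn, hc⟩ := Dr_cases hD
  have key : ∀ s θ : ℝ, 0 < θ → θ < 2 * π → z = P s θ →
      (∀ k : ℤ, s - θ / (2 * π) ≠ k) → False := by
    intro s θ h1 h2 h3 h4
    rcases hc with hc | ⟨k, hk⟩
    · rw [h3, ang_P h1 h2.le] at hc; linarith
    · rw [h3, vv_P h1 h2.le] at hk; exact h4 k hk
  unfold U at hz
  split_ifs at hz with h0 h1
  · rcases hz with ⟨h1, h2⟩ | ⟨⟨s, θ⟩, ⟨h1, h2, h3⟩, h4⟩
    · linarith
    · simp only at h1 h2 h3 h4
      rcases hc with hc | ⟨k, hk⟩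
      · rw [← h4, ang_P h1 h2.le] at hc; linarith
      · -- vv z = k < 0 but sc z ≥ 0
        have hv : vv z < 0 := by rw [← h4, vv_P h1 h2.le]; exact h3
        rw [hk] at hv
        have hk1 : k ≤ -1 := by
          have : k < 0 := by exact_mod_cast hv
          omega
        have hk1' : (k:ℝ) ≤ -1 := by exact_mod_cast hk1
        have := le_vv (z := z)
        rw [hk] at this
        -- then sc z ≤ 0, so sc z = 0 and ang = 2 pi
        have hs : sc z = 0 := by linarith
        have ha : ang z = 2 * π := by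
          have h5 : vv z = k := hk
          unfold vv at h5
          rw [hs] at h5
          have h6 : ang z / (2 * π) ≤ 1 := by rw [div_le_one (by positivity)]; exact ang_le z
          have h7 : ang z / (2 * π) = 1 := by linarith
          rw [div_eq_iff (by positivity)] at h7
          linarith
        rw [← h4, ang_P h1 h2.le] at ha
        linarith
  · rcases hz with h1 | ⟨⟨s, θ⟩, ⟨h1, h2, h3⟩, h4⟩
    · rw [mem_ball_zero_iff] at h1
      have : (n:ℝ) < sc z := by
        unfold sc
        have := (Real.log_lt_iff_lt_exp (norm_pos_iff.mpr hz0)).mpr h1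
        linarith
      linarith
    · simp only at h1 h2 h3 h4
      rcases hc with hc | ⟨k, hk⟩
      · rw [← h4, ang_P h1 h2.le] at hc; linarith
      · have hv : (n:ℝ) - 1 < vv z := by rw [← h4, vv_P h1 h2.le]; exact h3
        rw [hk] at hv
        have hk1 : (n:ℤ) ≤ k := by
          have : (n:ℤ) - 1 < k := by exact_mod_cast hv
          omega
        have hk1' : (n:ℝ) ≤ k := by exact_mod_cast hk1
        have := vv_lt (z := z)
        rw [hk] at this
        linarith
  · obtain ⟨⟨s, θ⟩, ⟨h2, h3, h4, h5⟩, h6⟩ := hz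
    simp only at h2 h3 h4 h5 h6
    apply key s θ h2 h3 h6.symm
    intro k hk
    rw [hk] at h4 h5
    have a1 : (j:ℤ) - 1 < k := by exact_mod_cast h4
    have a2 : k < (j:ℤ) := by exact_mod_cast h5
    omega

/-- a point off the drawing lies in the region of its level -/
lemma mem_U {n : ℕ} (hn : 1 ≤ n) {z : ℂ} (hz : z ∈ (Dr n)ᶜ) : lev n z ≤ n ∧ z ∈ U n (lev n z) := by
  by_cases hz0 : z = 0
  · have hl : lev n z = n := lev_n_of (Or.inl hz0)
    rw [hl]
    refine ⟨le_rfl, ?_⟩
    unfold U
    rw [if_neg (by omega), if_pos rfl]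
    left
    rw [hz0]; exact Metric.mem_ball_self (Real.exp_pos _)
  · rcases pos_real_or z hz0 with h | ⟨h, hlt⟩
    · -- positive real
      have hout : sc z < 0 ∨ (n:ℝ) < sc z := by
        by_contra hcon
        push Not at hcon
        exact hz ⟨sc z, hcon.1, hcon.2, Or.inl h.symm⟩
      rcases hout with hout | hout
      · have hl : lev n z = 0 := lev_zero_of hz0 (by linarith [vv_lt (z := z)])
        rw [hl]
        refine ⟨Nat.zero_le _, ?_⟩
        unfold U
        rw [if_pos rfl]
        left; exact ⟨hz0, hout⟩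
      · have hl : lev n z = n := lev_n_of (Or.inr (by linarith [le_vv (z := z)]))
        rw [hl]
        refine ⟨le_rfl, ?_⟩
        unfold U
        rw [if_neg (by omega), if_pos rfl]
        left
        rw [mem_ball_zero_iff, ← Real.log_lt_iff_lt_exp (norm_pos_iff.mpr hz0)]
        unfold sc at hout
        linarith
    · have hpol := P_polar hz0
      have hnot : ∀ k : ℤ, 0 ≤ k → k ≤ n - 1 → vv z ≠ k := by
        intro k hk0 hk1 hk
        have hs := on_spiral_of_vv hz0 k hk
        apply hz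
        refine ⟨sc z, ?_, ?_, Or.inr hs.symm⟩
        · have := vv_lt (z := z)
          rw [hk] at this
          have : (0:ℝ) ≤ k := by exact_mod_cast hk0
          linarith
        · have := le_vv (z := z)
          rw [hk] at this
          have h2 : (k:ℝ) ≤ n - 1 := by exact_mod_cast hk1
          linarith
      have hθ : (sc z, ang z) ∈ {p : ℝ × ℝ | 0 < p.2 ∧ p.2 < 2 * π} := ⟨ang_pos z, hlt⟩
      by_cases hv0 : vv z < 0
      · have hl : lev n z = 0 := lev_zero_of hz0 hv0
        rw [hl]
        refine ⟨Nat.zero_le _, ?_⟩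
        unfold U
        rw [if_pos rfl]
        right
        exact ⟨(sc z, ang z), ⟨ang_pos z, hlt, hv0⟩, hpol⟩
      · push Not at hv0
        by_cases hvn : (n:ℝ) - 1 < vv z
        · have hl : lev n z = n := lev_n_of (Or.inr hvn)
          rw [hl]
          refine ⟨le_rfl, ?_⟩
          unfold U
          rw [if_neg (by omega), if_pos rfl]
          right
          exact ⟨(sc z, ang z), ⟨ang_pos z, hlt, hvn⟩, hpol⟩
        · push Not at hvn
          -- 0 ≤ v ≤ n - 1, not an integer
          set j : ℕ := ⌊vv z⌋.toNat + 1 with hj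
          have hf0 : 0 ≤ ⌊vv z⌋ := Int.floor_nonneg.mpr hv0
          have hfj : ((⌊vv z⌋ : ℤ) : ℝ) = (j:ℝ) - 1 := by
            rw [hj]; push_cast
            have : ((⌊vv z⌋.toNat : ℤ)) = ⌊vv z⌋ := Int.toNat_of_nonneg hf0
            have h3 : ((⌊vv z⌋.toNat : ℕ) : ℝ) = ((⌊vv z⌋ : ℤ) : ℝ) := by exact_mod_cast this
            rw [h3]; ring
          have hfle := Int.floor_le (vv z)
          have hflt := Int.lt_floor_add_one (vv z)
          have hfn : ⌊vv z⌋ ≤ (n:ℤ) - 1 := by
            have : ((⌊vv z⌋ : ℤ) : ℝ) ≤ (n:ℝ) - 1 := hfle.trans hvn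
            exact_mod_cast this
          have hne := hnot ⌊vv z⌋ hf0 hfn
          have hlt1 : (j:ℝ) - 1 < vv z := by
            rw [← hfj]; exact lt_of_le_of_ne hfle (Ne.symm hne)
          have hlt2 : vv z < j := by
            have : (j:ℝ) = ((⌊vv z⌋ : ℤ) : ℝ) + 1 := by rw [hfj]; ring
            rw [this]; exact hflt
          have hjn : j < n := by
            -- v < n - 1 strictly or v ≤ n-1 and not integer
            have h4 : ((⌊vv z⌋ : ℤ) : ℝ) < (n:ℝ) - 1 := by
              rw [hfj]; linarith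
            have h5 : ⌊vv z⌋ < (n:ℤ) - 1 := by exact_mod_cast h4
            omega
          have hl : lev n z = j := lev_mid_of hz0 hjn.le hlt1 hlt2
          rw [hl]
          refine ⟨hjn.le, ?_⟩
          unfold U
          rw [if_neg (by omega), if_neg (by omega)]
          exact ⟨(sc z, ang z), ⟨ang_pos z, hlt, hlt1, hlt2⟩, hpol⟩


lemma isOpenMap_P : IsOpenMap (fun p : ℝ × ℝ => P p.1 p.2) := by
  have h1 : (fun p : ℝ × ℝ => P p.1 p.2) = Complex.exp ∘
      (fun p : ℝ × ℝ => Complex.equivRealProdCLM.symm (-p.1, p.2)) := by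
    funext p
    simp only [Function.comp, P]
    congr 1
    rw [Complex.equivRealProdCLM_symm_apply]
  rw [h1]
  apply Complex.isOpenMap_exp.comp
  have h2 : (fun p : ℝ × ℝ => Complex.equivRealProdCLM.symm (-p.1, p.2))
      = Complex.equivRealProdCLM.symm ∘ (Homeomorph.prodCongr (Homeomorph.neg ℝ) (Homeomorph.refl ℝ)) := by
    funext p
    rfl
  rw [h2]
  exact (Complex.equivRealProdCLM.symm.toHomeomorph.isOpenMap).comp (Homeomorph.isOpenMap _)

lemma convex_strip (I : Set ℝ) (hI : Convex ℝ I) :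
    Convex ℝ {p : ℝ × ℝ | 0 < p.2 ∧ p.2 < 2 * π ∧ p.1 - p.2 / (2 * π) ∈ I} := by
  intro x hx y hy t u ht hu htu
  simp only [Set.mem_ofPred_eq, Prod.fst_add, Prod.smul_fst, Prod.snd_add, Prod.smul_snd, smul_eq_mul] at *
  have hpi : (0:ℝ) < 2 * π := by positivity
  obtain ⟨x1, x2, x3⟩ := hx
  obtain ⟨y1, y2, y3⟩ := hy
  have e : t * x.1 + u * y.1 - (t * x.2 + u * y.2) / (2 * π)
      = t * (x.1 - x.2 / (2 * π)) + u * (y.1 - y.2 / (2 * π)) := by ring
  refine ⟨?_, ?_, ?_⟩
  · have hu' : u = 1 - t := by linarith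
    subst hu'
    rcases eq_or_lt_of_le ht with h | h
    · rw [← h]; simp; exact y1
    · nlinarith
  · have hu' : u = 1 - t := by linarith
    subst hu'
    rcases eq_or_lt_of_le ht with h | h
    · rw [← h]; simp; exact y2
    · nlinarith
  · rw [e]
    have := hI x3 y3 ht hu htu
    simpa [smul_eq_mul] using this

lemma open_strip (I : Set ℝ) (hI : IsOpen I) :
    IsOpen {p : ℝ × ℝ | 0 < p.2 ∧ p.2 < 2 * π ∧ p.1 - p.2 / (2 * π) ∈ I} := by
  apply IsOpen.inter
  · exact isOpen_lt continuous_const continuous_snd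
  · apply IsOpen.inter
    · exact isOpen_lt continuous_snd continuous_const
    · exact hI.preimage (by fun_prop)

lemma outer_eq : {z : ℂ | z ≠ 0 ∧ sc z < 0} = (fun p : ℝ × ℝ => P p.1 p.2) '' {p | p.1 < 0} := by
  ext z
  constructor
  · rintro ⟨h1, h2⟩
    exact ⟨(sc z, ang z), h2, P_polar h1⟩
  · rintro ⟨⟨s, θ⟩, h, rfl⟩
    refine ⟨P_ne_zero _ _, ?_⟩
    simp only
    rw [sc_P]; exact h

lemma isOpen_U (n j : ℕ) : IsOpen (U n j) := by
  unfold U
  split_ifs
  · rw [outer_eq]
    apply IsOpen.union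
    · exact isOpenMap_P _ (isOpen_lt continuous_fst continuous_const)
    · exact isOpenMap_P _ (open_strip (Set.Iio 0) isOpen_Iio)
  · apply IsOpen.union Metric.isOpen_ball
    exact isOpenMap_P _ (open_strip (Set.Ioi ((n:ℝ) - 1)) isOpen_Ioi)
  · exact isOpenMap_P _ (open_strip (Set.Ioo ((j:ℝ) - 1) j) isOpen_Ioo)

lemma isPreconnected_U {n j : ℕ} : IsPreconnected (U n j) := by
  have hpi : (0:ℝ) < π := Real.pi_pos
  have him : ∀ I : Set ℝ, Convex ℝ I → IsPreconnected ((fun p : ℝ × ℝ => P p.1 p.2) ''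
      {p : ℝ × ℝ | 0 < p.2 ∧ p.2 < 2 * π ∧ p.1 - p.2 / (2 * π) ∈ I}) := fun I hI =>
    (convex_strip I hI).isPreconnected.image _ continuous_P.continuousOn
  unfold U
  split_ifs
  · rw [outer_eq]
    apply IsPreconnected.union' _ _ (him (Set.Iio 0) (convex_Iio 0))
    · refine ⟨P (-1) π, ⟨(-1, π), by simp, rfl⟩, ⟨(-1, π), ⟨hpi, by simp only; linarith, ?_⟩, rfl⟩⟩
      have : (0:ℝ) < π / (2 * π) := by positivity
      simp only [Set.mem_Iio]; linarith
    · apply IsPreconnected.image _ _ continuous_P.continuousOn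
      apply Convex.isPreconnected
      have : {p : ℝ × ℝ | p.1 < 0} = Prod.fst ⁻¹' (Set.Iio 0) := rfl
      rw [this]
      exact (convex_Iio (0:ℝ)).linear_preimage (LinearMap.fst ℝ ℝ ℝ)
  · apply IsPreconnected.union' _ (convex_ball _ _).isPreconnected (him (Set.Ioi ((n:ℝ) - 1)) (convex_Ioi _))
    refine ⟨P (n + 1) π, ?_, ⟨((n:ℝ) + 1, π), ⟨hpi, by simp only; linarith, ?_⟩, rfl⟩⟩
    · rw [mem_ball_zero_iff, norm_P]
      exact Real.exp_lt_exp.mpr (by linarith)
    · have : π / (2 * π) = 1 / 2 := by field_simp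
      simp only [Set.mem_Ioi]; rw [this]; linarith
  · exact him (Set.Ioo ((j:ℝ) - 1) j) (convex_Ioo _ _)

lemma component_eq {n : ℕ} (hn : 1 ≤ n) {z : ℂ} (hz : z ∈ (Dr n)ᶜ) :
    connectedComponentIn (Dr n)ᶜ z = U n (lev n z) := by
  apply Set.Subset.antisymm
  · have hcont : ContinuousOn (lev n) (Dr n)ᶜ := by
      intro x hx
      obtain ⟨h1, h2⟩ := mem_U hn hx
      apply ContinuousAt.continuousWithinAt
      rw [ContinuousAt, nhds_discrete ℕ, tendsto_pure]
      filter_upwards [(isOpen_U n (lev n x)).mem_nhds h2] with y hy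
      exact lev_U h1 hy
    intro y hy
    have hyD := connectedComponentIn_subset _ _ hy
    have hconst : lev n y = lev n z :=
      isPreconnected_connectedComponentIn.constant
        (hcont.mono (connectedComponentIn_subset _ _)) hy (mem_connectedComponentIn hz)
    rw [← hconst]
    exact (mem_U hn hyD).2
  · exact isPreconnected_U.subset_connectedComponentIn (mem_U hn hz).2 (U_subset (mem_U hn hz).1)

/-- near a point with non integral `sc`, the level takes only two consecutive values -/
lemma lev_osc {n : ℕ} {q : ℂ} (hq : q ≠ 0) (h0 : 0 ≤ sc q) (hint : ∀ k : ℤ, sc q ≠ k) :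
    ∃ a : ℕ, ∀ᶠ z in 𝓝 q, a ≤ lev n z ∧ lev n z ≤ a + 1 := by
  classical
  set j : ℕ := ⌊sc q⌋.toNat with hj
  have hf0 : 0 ≤ ⌊sc q⌋ := Int.floor_nonneg.mpr h0
  have hfj : ((⌊sc q⌋ : ℤ) : ℝ) = (j:ℝ) := by
    have : ((⌊sc q⌋.toNat : ℤ)) = ⌊sc q⌋ := Int.toNat_of_nonneg hf0
    rw [hj]
    exact_mod_cast this.symm
  have h1 : (j:ℝ) < sc q := by
    rw [← hfj]
    exact lt_of_le_of_ne (Int.floor_le _) (fun h => hint _ h.symm)
  have h2 : sc q < j + 1 := by
    rw [← hfj]; exact Int.lt_floor_add_one _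
  refine ⟨min n j, ?_⟩
  have hc := continuousAt_sc hq
  filter_upwards [hc.eventually (lt_mem_nhds h1), hc.eventually (gt_mem_nhds h2),
    isOpen_ne.mem_nhds hq] with z hz1 hz2 hz3
  have hz3' : z ≠ 0 := hz3
  unfold lev
  constructor
  · rw [← Finset.card_range (min n j)]
    apply Finset.card_le_card
    intro k hk
    rw [Finset.mem_range] at hk
    rw [Finset.mem_filter, Finset.mem_range]
    refine ⟨by omega, Or.inr ?_⟩
    have h3 : (k:ℝ) + 1 ≤ j := by
      have : k + 1 ≤ j := by omega
      exact_mod_cast this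
    linarith [le_vv (z := z)]
  · have : (Finset.filter (fun k : ℕ => z = 0 ∨ (k : ℝ) < vv z) (Finset.range n)) ⊆ Finset.range (min n j + 1) := by
      intro k hk
      rw [Finset.mem_filter, Finset.mem_range] at hk
      rw [Finset.mem_range]
      rcases hk.2 with h | h
      · exact absurd h hz3'
      · have h3 : (k:ℝ) < j + 1 := by linarith [vv_lt (z := z)]
        have h4 : k < j + 1 := by exact_mod_cast h3
        omega
    refine (Finset.card_le_card this).trans ?_
    rw [Finset.card_range]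

/-- a turn of the spiral is on the boundary of the two regions -/
lemma turn_frontier {n j : ℕ} (hj : j < n) {t : ℝ} (h1 : (j:ℝ) < t) (h2 : t < j + 1) :
    P t (2 * π * t) ∈ frontier (U n j) ∧ P t (2 * π * t) ∈ frontier (U n (j + 1)) := by
  have hpi : (0:ℝ) < π := Real.pi_pos
  have hjn : (j:ℝ) + 1 ≤ n := by exact_mod_cast hj
  have hD : P t (2 * π * t) ∈ Dr n := by
    refine ⟨t, ?_, by linarith, Or.inr rfl⟩
    have : (0:ℝ) ≤ j := by positivity
    linarith
  set θ : ℝ := 2 * π * (t - j) with hθ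
  have hθ0 : 0 < θ := by rw [hθ]; apply mul_pos (by linarith); linarith
  have hθ1 : θ < 2 * π := by
    rw [hθ]
    have : t - j < 1 := by linarith
    nlinarith
  have hPe : P t (2 * π * t) = P t θ := by
    rw [P_eq_iff]; exact ⟨rfl, j, by rw [hθ]; push_cast; ring⟩
  have hθd : θ / (2 * π) = t - j := by rw [hθ]; field_simp
  have hcont : Continuous (fun ε : ℝ => P (t + ε) θ) :=
    continuous_P.comp (f := fun ε : ℝ => ((t + ε, θ) : ℝ × ℝ)) (by fun_prop)
  have hcl1 : P t θ ∈ closure (U n j) := by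
    have h0 : (0:ℝ) ∈ closure (Set.Ioo (-1:ℝ) 0) := by
      rw [closure_Ioo (by norm_num)]; constructor <;> norm_num
    have := map_mem_closure hcont h0 (t := U n j) (by
      intro ε hε
      rw [Set.mem_Ioo] at hε
      unfold U
      split_ifs with a b
      · right
        refine ⟨(t + ε, θ), ⟨hθ0, hθ1, ?_⟩, rfl⟩
        simp only
        rw [hθd, a]; push_cast; linarith
      · omega
      · refine ⟨(t + ε, θ), ⟨hθ0, hθ1, ?_, ?_⟩, rfl⟩
        · simp only
          rw [hθd]; linarith
        · simp only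
          rw [hθd]; linarith)
    simpa using this
  have hcl2 : P t θ ∈ closure (U n (j + 1)) := by
    have h0 : (0:ℝ) ∈ closure (Set.Ioo (0:ℝ) 1) := by
      rw [closure_Ioo (by norm_num)]; constructor <;> norm_num
    have := map_mem_closure hcont h0 (t := U n (j + 1)) (by
      intro ε hε
      rw [Set.mem_Ioo] at hε
      unfold U
      rw [if_neg (Nat.succ_ne_zero j)]
      by_cases b : j + 1 = n
      · rw [if_pos b]
        right
        refine ⟨(t + ε, θ), ⟨hθ0, hθ1, ?_⟩, rfl⟩
        simp only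
        rw [hθd, ← b]; push_cast; linarith
      · rw [if_neg b]
        refine ⟨(t + ε, θ), ⟨hθ0, hθ1, ?_, ?_⟩, rfl⟩
        · simp only
          rw [hθd]; push_cast; linarith
        · simp only
          rw [hθd]; push_cast; linarith)
    simpa using this
  have hnot : ∀ i, i ≤ n → P t θ ∉ interior (U n i) := by
    intro i hi h
    have := interior_subset h
    exact U_subset hi this (by rw [← hPe]; exact hD)
  rw [hPe]
  exact ⟨⟨hcl1, hnot j hj.le⟩, ⟨hcl2, hnot (j + 1) hj⟩⟩


/-! ### The spiral drawing of a cycle -/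

/-- break points of the radial part -/
noncomputable def bb (n k : ℕ) : ℝ := min (max ((k : ℝ) - 1 / 2) 0) n

lemma bb_facts {n k : ℕ} (hn : 1 ≤ n) (hk : k ≤ n) :
    0 ≤ bb n k ∧ (k:ℝ) - 1 / 2 ≤ bb n k ∧ bb n k ≤ k ∧ (k:ℝ) ≤ bb n (k + 1) ∧ bb n (k + 1) ≤ k + 1 / 2 ∧
      bb n (k + 1) ≤ n ∧ bb n k < bb n (k + 1) := by
  have hn' : (1:ℝ) ≤ n := by exact_mod_cast hn
  have hk' : (k:ℝ) ≤ n := by exact_mod_cast hk
  have hk0 : (0:ℝ) ≤ k := by positivity
  unfold bb
  push_cast
  refine ⟨?_, ?_, ?_, ?_, ?_, ?_, ?_⟩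
  · exact le_min (le_max_right _ _) (by linarith)
  · exact le_min (le_max_left _ _) (by linarith)
  · refine (min_le_left _ _).trans (max_le (by linarith) hk0)
  · refine le_min (le_max_of_le_left (by linarith)) hk'
  · refine (min_le_left _ _).trans (max_le (by linarith) (by linarith))
  · exact min_le_right _ _
  · rcases Nat.eq_zero_or_pos k with h | h
    · subst h
      have h1 : min (max (((0:ℕ):ℝ) - 1 / 2) 0) (n:ℝ) ≤ 0 :=
        (min_le_left _ _).trans (max_le (by norm_num) le_rfl)
      refine lt_of_le_of_lt h1 (lt_min (lt_max_of_lt_left (by norm_num)) (by linarith))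
    · have h1 : (1:ℝ) ≤ k := by exact_mod_cast h
      have h2 : min (max ((k:ℝ) - 1 / 2) 0) (n:ℝ) ≤ k - 1 / 2 :=
        (min_le_left _ _).trans (max_le le_rfl (by linarith))
      refine lt_of_le_of_lt h2 (lt_min (lt_max_of_lt_left (by linarith)) (by linarith))

lemma bb_zero (n : ℕ) : bb n 0 = 0 := by
  unfold bb
  rw [max_eq_right (by norm_num)]
  exact min_eq_left (by positivity)

lemma bb_last (n : ℕ) : bb n (n + 1) = n := by
  unfold bb
  apply min_eq_right
  apply le_max_of_le_left
  push_cast; linarith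

lemma bb_mono {n : ℕ} {i j : ℕ} (hij : i ≤ j) : bb n i ≤ bb n j := by
  unfold bb
  apply min_le_min _ le_rfl
  apply max_le_max _ le_rfl
  have : (i:ℝ) ≤ j := by exact_mod_cast hij
  linarith

lemma bb_strict {n : ℕ} (hn : 1 ≤ n) {i j : ℕ} (hij : i < j) (hj : j ≤ n + 1) : bb n i < bb n j := by
  have h1 := (bb_facts hn (show i ≤ n by omega)).2.2.2.2.2.2
  exact lt_of_lt_of_le h1 (bb_mono (by omega))

lemma bb_inj {n : ℕ} (hn : 1 ≤ n) {i j : ℕ} (hi : i ≤ n + 1) (hj : j ≤ n + 1) (h : bb n i = bb n j) : i = j := by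
  rcases lt_trichotomy i j with h1 | h1 | h1
  · exact absurd h (bb_strict hn h1 hj).ne
  · exact h1
  · exact absurd h.symm (bb_strict hn h1 hi).ne

/-- an integer in the `k`-th radial interval is `k` -/
lemma int_in {n k : ℕ} (hn : 1 ≤ n) (hk : k ≤ n) {x : ℝ} (h1 : bb n k ≤ x) (h2 : x ≤ bb n (k + 1))
    {m : ℤ} (hm : x = m) : x = k := by
  obtain ⟨f0, f1, f2, f3, f4, f5, f6⟩ := bb_facts hn hk
  have a1 : ((k:ℤ):ℝ) - 1 < m := by push_cast; rw [← hm]; linarith
  have a2 : (m:ℝ) < ((k:ℤ):ℝ) + 1 := by push_cast; rw [← hm]; linarith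
  have b1 : (k:ℤ) - 1 < m := by exact_mod_cast a1
  have b2 : m < (k:ℤ) + 1 := by exact_mod_cast a2
  have : m = k := by omega
  rw [hm, this]; push_cast; rfl

/-- a common point of the positive reals and the spiral has integral parameter -/
lemma meet {x t : ℝ} (h : P x 0 = P t (2 * π * t)) : x = t ∧ ∃ m : ℤ, t = m := by
  rw [P_eq_iff] at h
  obtain ⟨h1, k, hk⟩ := h
  refine ⟨h1, -k, ?_⟩
  have hpi : (2:ℝ) * π ≠ 0 := by positivity
  have : (2 * π) * (t + k) = 0 := by linarith
  rcases mul_eq_zero.mp this with h | h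
  · exact absurd h hpi
  · push_cast; linarith

lemma P_int (k : ℤ) : P k (2 * π * k) = P k 0 := by
  have := P_add_int (k:ℝ) 0 k
  rw [zero_add] at this
  exact this

/-- an injective continuous image of an interval is a Jordan arc -/
lemma exists_arc {a b : ℝ} (hab : a < b) (f : ℝ → ℂ) (hf : Continuous f) (hinj : Function.Injective f) :
    ∃ γ : C(unitInterval, ℂ), Function.Injective γ ∧ Set.range γ = f '' Set.Icc a b ∧ γ 0 = f a ∧ γ 1 = f b := by
  refine ⟨⟨fun u => f (a + (u:ℝ) * (b - a)), by fun_prop⟩, ?_, ?_, ?_, ?_⟩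
  · intro u v h
    have h1 := hinj h
    have h2 : (u:ℝ) * (b - a) = v * (b - a) := by linarith
    have h3 : (u:ℝ) = v := mul_right_cancel₀ (by linarith : b - a ≠ 0) h2
    exact Subtype.ext h3
  · ext z
    constructor
    · rintro ⟨u, rfl⟩
      refine ⟨a + (u:ℝ) * (b - a), ⟨?_, ?_⟩, rfl⟩
      · have := mul_nonneg u.2.1 (by linarith : 0 ≤ b - a); linarith
      · have := mul_le_mul_of_nonneg_right u.2.2 (by linarith : 0 ≤ b - a); linarith
    · rintro ⟨x, ⟨hx1, hx2⟩, rfl⟩
      have hba : 0 < b - a := by linarith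
      refine ⟨⟨(x - a) / (b - a), ?_, ?_⟩, ?_⟩
      · apply div_nonneg (by linarith) hba.le
      · rw [div_le_one hba]; linarith
      · simp only [ContinuousMap.coe_mk]
        congr 1
        field_simp
        ring
  · simp
  · simp

lemma rad_injective : Function.Injective (fun x : ℝ => P x 0) := by
  intro x y h
  exact ((P_eq_iff _ _ _ _).mp h).1

lemma spi_injective : Function.Injective (fun x : ℝ => P x (2 * π * x)) := by
  intro x y h
  exact ((P_eq_iff _ _ _ _).mp h).1

/-- the arcs -/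
noncomputable def arcs (n : ℕ) : Option (Fin (n + 1)) → Set ℂ
  | none => (fun x : ℝ => P x (2 * π * x)) '' Set.Icc 0 n
  | some k => (fun x : ℝ => P x 0) '' Set.Icc (bb n k) (bb n (k + 1))

/-- endpoints -/
def endpts (n : ℕ) : Option (Fin (n + 1)) → Sym2 (Fin (n + 2))
  | none => s(0, Fin.last (n + 1))
  | some k => s(k.castSucc, k.succ)

lemma ProperCrossing.symm {A B : Set ℂ} {p : ℂ} (h : ProperCrossing A B p) : ProperCrossing B A p := by
  obtain ⟨h, h1, h2, h3, h4⟩ := h
  refine ⟨h.trans (Homeomorph.prodComm ℝ ℝ).toOpenPartialHomeomorph, ?_, ?_, ?_, ?_⟩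
  · simpa using h1
  · simp [h2]
  · intro q hq
    have hq' : q ∈ h.source := by simpa using hq
    simpa using h4 q hq'
  · intro q hq
    have hq' : q ∈ h.source := by simpa using hq
    simpa using h3 q hq'

/-- the crossing of the spiral and the positive reals is proper -/
lemma proper {n : ℕ} (k : ℕ) (a b : ℝ) (hk1 : 1 ≤ k) (hkn : k + 1 ≤ n) (ha : a = k - 1 / 2) (hb : b = k + 1 / 2) :
    ProperCrossing ((fun x : ℝ => P x 0) '' Set.Icc a b) ((fun x : ℝ => P x (2 * π * x)) '' Set.Icc 0 n) (P k 0) := by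
  have hpi : (0:ℝ) < π := Real.pi_pos
  -- the chart
  let W : Set ℂ := {z | Real.exp (-(k + 1 / 2)) < ‖z‖ ∧ ‖z‖ < Real.exp (-(k - 1 / 2))}
  have hW : IsOpen W := (isOpen_lt continuous_const continuous_norm).inter (isOpen_lt continuous_norm continuous_const)
  let sh : ℝ × ℝ ≃ₜ ℝ × ℝ :=
    { toFun := fun p => (p.1 + p.2 / (2 * π) + k, p.2)
      invFun := fun p => (p.1 - p.2 / (2 * π) - k, p.2)
      left_inv := by
        intro p
        have e : p.1 + p.2 / (2 * π) + k - p.2 / (2 * π) - k = p.1 := by ring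
        simp only [e]
      right_inv := by
        intro p
        have e : p.1 - p.2 / (2 * π) - k + p.2 / (2 * π) + k = p.1 := by ring
        simp only [e]
      continuous_toFun := by fun_prop
      continuous_invFun := by fun_prop }
  let h : OpenPartialHomeomorph ℂ (ℝ × ℝ) :=
    ((Complex.expOpenPartialHomeomorph.symm.trans
      (Complex.equivRealProdCLM.toHomeomorph.trans sh).toOpenPartialHomeomorph)).restrOpen W hW
  have hsrc : ∀ q, q ∈ h.source ↔ q ∈ Complex.slitPlane ∧ q ∈ W := by
    intro q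
    simp [h, Complex.expOpenPartialHomeomorph]
  have hval : ∀ q, h q = ((Complex.log q).re + (Complex.log q).im / (2 * π) + k, (Complex.log q).im) := by
    intro q
    simp [h, sh, Complex.expOpenPartialHomeomorph]
  -- points of the source in polar form
  have hq : ∀ q ∈ h.source, ∃ s θ : ℝ, q = P s θ ∧ -π < θ ∧ θ < π ∧ k - 1 / 2 < s ∧ s < k + 1 / 2 ∧
      h q = (-s + θ / (2 * π) + k, θ) := by
    intro q hq
    obtain ⟨h1, h2, h3⟩ := (hsrc q).mp hq
    have hq0 : q ≠ 0 := Complex.slitPlane_ne_zero h1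
    have hqn : 0 < ‖q‖ := norm_pos_iff.mpr hq0
    have harg := Complex.mem_slitPlane_iff_arg.mp h1
    refine ⟨-(Complex.log q).re, (Complex.log q).im, ?_, ?_, ?_, ?_, ?_, ?_⟩
    · unfold P
      rw [neg_neg, Complex.re_add_im, Complex.exp_log hq0]
    · rw [Complex.log_im]; exact Complex.neg_pi_lt_arg q
    · rw [Complex.log_im]
      exact lt_of_le_of_ne (Complex.arg_le_pi q) harg.1
    · rw [Complex.log_re]
      have := (Real.log_lt_iff_lt_exp hqn).mpr h3
      linarith
    · rw [Complex.log_re]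
      have := (Real.lt_log_iff_exp_lt hqn).mpr h2
      linarith
    · rw [hval]; simp
  have hk1' : (1:ℝ) ≤ k := by exact_mod_cast hk1
  have hkn' : (k:ℝ) + 1 ≤ n := by exact_mod_cast hkn
  refine ⟨h, ?_, ?_, ?_, ?_⟩
  · rw [hsrc]
    have hpos : P k 0 = ((Real.exp (-k) : ℝ) : ℂ) := by unfold P; simp
    refine ⟨?_, ?_, ?_⟩
    · rw [hpos]; exact Complex.ofReal_mem_slitPlane.mpr (Real.exp_pos _)
    · rw [norm_P]; exact Real.exp_lt_exp.mpr (by linarith)
    · rw [norm_P]; exact Real.exp_lt_exp.mpr (by linarith)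
  · rw [hval]
    unfold P
    rw [Complex.log_exp (by simp; linarith) (by simp; linarith)]
    simp
  · intro q hqs
    obtain ⟨s, θ, h1, h2, h3, h4, h5, h6⟩ := hq q hqs
    rw [h6]
    simp only
    constructor
    · rintro ⟨x, _, hx⟩
      simp only at hx
      rw [h1, P_eq_iff] at hx
      obtain ⟨_, m, hm⟩ := hx
      have hm0 : m = 0 := by
        have a1 : (m:ℝ) < 1 := by
          by_contra hcon
          push Not at hcon
          nlinarith
        have a2 : (-1:ℝ) < m := by
          by_contra hcon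
          push Not at hcon
          nlinarith
        have b1 : m < 1 := by exact_mod_cast a1
        have b2 : (-1:ℤ) < m := by exact_mod_cast a2
        omega
      rw [hm0] at hm
      simp at hm
      exact hm.symm ▸ rfl
    · intro hθ
      refine ⟨s, ⟨by rw [ha]; exact h4.le, by rw [hb]; exact h5.le⟩, ?_⟩
      simp only
      rw [h1, hθ]
  · intro q hqs
    obtain ⟨s, θ, h1, h2, h3, h4, h5, h6⟩ := hq q hqs
    rw [h6]
    simp only
    constructor
    · rintro ⟨x, _, hx⟩
      simp only at hx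
      rw [h1, P_eq_iff] at hx
      obtain ⟨hxs, m, hm⟩ := hx
      subst hxs
      -- 2 π x = θ + 2 π m
      have hm' : θ = 2 * π * (x - m) := by linarith
      have hmk : m = k := by
        have a1 : ((m:ℝ)) < k + 1 := by
          by_contra hcon
          push Not at hcon
          have : x - m < -1 / 2 := by linarith
          nlinarith
        have a2 : (k:ℝ) - 1 < m := by
          by_contra hcon
          push Not at hcon
          have : 1 / 2 < x - m := by linarith
          nlinarith
        have b1 : m < (k:ℤ) + 1 := by exact_mod_cast a1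
        have b2 : (k:ℤ) - 1 < m := by exact_mod_cast a2
        omega
      rw [hm', hmk]
      field_simp
      push_cast
      ring
    · intro h0
      refine ⟨s, ⟨by linarith, by linarith⟩, ?_⟩
      simp only
      rw [h1, P_eq_iff]
      refine ⟨rfl, k, ?_⟩
      have : θ / (2 * π) = s - k := by linarith
      rw [div_eq_iff (by positivity)] at this
      rw [this]; push_cast; ring


lemma arc_none (n : ℕ) : arcs n none = (fun x : ℝ => P x (2 * π * x)) '' Set.Icc 0 n := rfl

lemma arc_some (n : ℕ) (k : Fin (n + 1)) :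
    arcs n (some k) = (fun x : ℝ => P x 0) '' Set.Icc (bb n k) (bb n (k + 1)) := rfl

/-- common points of the spiral and the `k`-th radial edge -/
lemma meet_none_some {n : ℕ} (hn : 1 ≤ n) (k : Fin (n + 1)) {p : ℂ} (h1 : p ∈ arcs n none)
    (h2 : p ∈ arcs n (some k)) : p = P (k : ℕ) 0 := by
  obtain ⟨t, _, rfl⟩ := h1
  obtain ⟨x, ⟨hx1, hx2⟩, hx⟩ := h2
  simp only at hx
  obtain ⟨h3, m, hm⟩ := meet hx
  have := int_in hn (by omega : (k:ℕ) ≤ n) hx1 hx2 (m := m) (by rw [h3, hm])
  simp only
  rw [← hx, this]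

/-- common points of two radial edges -/
lemma meet_some_some {n : ℕ} (hn : 1 ≤ n) {k l : Fin (n + 1)} (hkl : k < l) {p : ℂ}
    (h1 : p ∈ arcs n (some k)) (h2 : p ∈ arcs n (some l)) :
    (l : ℕ) = k + 1 ∧ p = P (bb n (k + 1)) 0 := by
  obtain ⟨x, ⟨hx1, hx2⟩, rfl⟩ := h1
  obtain ⟨y, ⟨hy1, hy2⟩, hy⟩ := h2
  simp only at hy
  have hxy : y = x := ((P_eq_iff _ _ _ _).mp hy).1
  subst hxy
  have hkl' : (k:ℕ) < l := hkl
  have h3 : bb n (k + 1) ≤ bb n l := bb_mono (by omega)
  have h4 : y = bb n (k + 1) := le_antisymm hx2 (h3.trans hy1)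
  have h5 : bb n (k + 1) = bb n l := le_antisymm h3 (hy1.trans hx2)
  have h6 := bb_inj hn (by omega) (by omega) h5
  exact ⟨h6.symm, by simp only; rw [h4]⟩

/-- the cycle of length `n + 2` drawn with a spiral of `n` turns -/
noncomputable def spiral (n : ℕ) (hn : 1 ≤ n) : SimpleTopGraph where
  V := Fin (n + 2)
  E := Option (Fin (n + 1))
  finV := inferInstance
  finE := inferInstance
  ends := endpts n
  ends_not_diag := by
    intro e
    rcases e with _ | k
    · simp only [endpts, Sym2.mk_isDiag_iff]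
      intro h
      have := congrArg Fin.val h
      simp at this
    · simp only [endpts, Sym2.mk_isDiag_iff]
      intro h
      have := congrArg Fin.val h
      simp at this
  ends_injective := by
    intro e f h
    rcases e with _ | k <;> rcases f with _ | l
    · rfl
    · simp only [endpts, Sym2.eq_iff, Fin.ext_iff, Fin.val_castSucc, Fin.val_succ, Fin.val_last,
        Fin.val_zero] at h
      exfalso; omega
    · simp only [endpts, Sym2.eq_iff, Fin.ext_iff, Fin.val_castSucc, Fin.val_succ, Fin.val_last,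
        Fin.val_zero] at h
      exfalso; omega
    · simp only [endpts, Sym2.eq_iff, Fin.ext_iff, Fin.val_castSucc, Fin.val_succ] at h
      congr 1
      apply Fin.ext
      omega
  pos := fun v => P (bb n v) 0
  pos_injective := by
    intro u v h
    have h1 := ((P_eq_iff _ _ _ _).mp h).1
    exact Fin.ext (bb_inj hn (by omega) (by omega) h1)
  arc := arcs n
  isArc := by
    intro e
    rcases e with _ | k
    · have hn' : (0:ℝ) < n := by exact_mod_cast hn
      obtain ⟨γ, h1, h2, h3, h4⟩ := exists_arc hn' (fun x : ℝ => P x (2 * π * x))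
        (continuous_P.comp (f := fun x : ℝ => ((x, 2 * π * x) : ℝ × ℝ)) (by fun_prop)) spi_injective
      refine ⟨γ, h1, h2, ?_⟩
      simp only [endpts, Sym2.map_mk]
      rw [h3, h4]
      have e1 : P 0 (2 * π * 0) = P (bb n ((0 : Fin (n + 2)) : ℕ)) 0 := by
        simp [bb_zero]
      have e2 : P n (2 * π * n) = P (bb n ((Fin.last (n + 1) : Fin (n + 2)) : ℕ)) 0 := by
        rw [Fin.val_last, bb_last]
        have := P_int (n : ℤ)
        push_cast at this
        exact this
      rw [e1, e2]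
    · have hk := (bb_facts hn (show (k:ℕ) ≤ n by omega)).2.2.2.2.2.2
      obtain ⟨γ, h1, h2, h3, h4⟩ := exists_arc hk (fun x : ℝ => P x 0)
        (continuous_P.comp (f := fun x : ℝ => ((x, 0) : ℝ × ℝ)) (by fun_prop)) rad_injective
      refine ⟨γ, h1, h2, ?_⟩
      simp only [endpts, Sym2.map_mk]
      rw [h3, h4]
      simp
  no_vertex := by
    intro e v h
    rcases e with _ | k
    · obtain ⟨t, _, ht⟩ := h
      simp only at ht
      obtain ⟨h1, m, hm⟩ := meet ht.symm
      simp only [endpts, Sym2.mem_iff]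
      rcases Nat.lt_or_ge (v:ℕ) (n + 1) with hv | hv
      · -- v ≤ n : bb n v is an integer in [bb v, bb (v+1)]
        have h2 := int_in hn (show (v:ℕ) ≤ n by omega) le_rfl
          ((bb_facts hn (show (v:ℕ) ≤ n by omega)).2.2.2.2.2.2).le (m := m) (by rw [h1, hm])
        left
        by_contra hne
        have hv1 : 1 ≤ (v:ℕ) := by
          rcases Nat.eq_zero_or_pos (v:ℕ) with h0 | h0
          · exact absurd (Fin.ext h0) hne
          · exact h0
        -- bb n v ≤ v - 1/2
        have h3 : bb n v ≤ (v:ℕ) - 1 / 2 := by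
          unfold bb
          refine (min_le_left _ _).trans (max_le le_rfl ?_)
          have : (1:ℝ) ≤ (v:ℕ) := by exact_mod_cast hv1
          linarith
        linarith
      · right
        apply Fin.ext
        rw [Fin.val_last]
        have := v.isLt
        omega
    · obtain ⟨x, ⟨hx1, hx2⟩, hx⟩ := h
      simp only at hx
      have h1 := ((P_eq_iff _ _ _ _).mp hx).1
      rw [h1] at hx1 hx2
      simp only [endpts, Sym2.mem_iff]
      rcases lt_trichotomy (v:ℕ) k with h2 | h2 | h2
      · have := bb_strict hn h2 (by omega); linarith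
      · left; exact Fin.ext h2
      · right
        rcases Nat.lt_or_ge (k + 1 : ℕ) v with h3 | h3
        · have := bb_strict hn h3 (by omega); linarith
        · apply Fin.ext; rw [Fin.val_succ]; omega
  inter_subsingleton := by
    intro e f hef p hp q hq
    rcases e with _ | k <;> rcases f with _ | l
    · exact absurd rfl hef
    · rw [meet_none_some hn l hp.1 hp.2, meet_none_some hn l hq.1 hq.2]
    · rw [meet_none_some hn k hp.2 hp.1, meet_none_some hn k hq.2 hq.1]
    · rcases lt_trichotomy k l with h | h | h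
      · rw [(meet_some_some hn h hp.1 hp.2).2, (meet_some_some hn h hq.1 hq.2).2]
      · exact absurd (by rw [h]) hef
      · rw [(meet_some_some hn h hp.2 hp.1).2, (meet_some_some hn h hq.2 hq.1).2]
  common := by
    have key : ∀ (k : Fin (n + 1)) (p : ℂ), p ∈ arcs n none → p ∈ arcs n (some k) →
        (∃ v, v ∈ endpts n none ∧ v ∈ endpts n (some k) ∧ p = P (bb n v) 0) ∨
          ProperCrossing (arcs n (some k)) (arcs n none) p := by
      intro k p h1 h2
      have hp := meet_none_some hn k h1 h2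
      rcases Nat.eq_zero_or_pos (k:ℕ) with h0 | h0
      · left
        refine ⟨0, ?_, ?_, ?_⟩
        · simp [endpts]
        · simp only [endpts, Sym2.mem_iff]
          left; apply Fin.ext; rw [Fin.val_castSucc]; exact h0.symm
        · rw [hp, h0]; simp [bb_zero]
      · rcases Nat.lt_or_ge (k:ℕ) n with hkn | hkn
        · right
          rw [hp]
          have hbk : bb n k = (k:ℕ) - 1 / 2 := by
            unfold bb
            have a1 : (1:ℝ) ≤ (k:ℕ) := by exact_mod_cast h0
            have a2 : ((k:ℕ):ℝ) ≤ n := by exact_mod_cast hkn.le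
            rw [max_eq_left (by linarith), min_eq_left (by linarith)]
          have hbk1 : bb n (k + 1) = (k:ℕ) + 1 / 2 := by
            unfold bb
            have a1 : (1:ℝ) ≤ (k:ℕ) := by exact_mod_cast h0
            have a2 : ((k:ℕ):ℝ) + 1 ≤ n := by exact_mod_cast hkn
            push_cast
            rw [max_eq_left (by linarith), min_eq_left (by linarith)]
            ring
          exact proper (k:ℕ) _ _ h0 hkn hbk hbk1
        · left
          have hk : (k:ℕ) = n := by omega
          refine ⟨Fin.last (n + 1), ?_, ?_, ?_⟩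
          · simp [endpts]
          · simp only [endpts, Sym2.mem_iff]
            right; apply Fin.ext; rw [Fin.val_last, Fin.val_succ, hk]
          · rw [hp, hk, Fin.val_last, bb_last]
    have key2 : ∀ (k l : Fin (n + 1)) (p : ℂ), k < l → p ∈ arcs n (some k) → p ∈ arcs n (some l) →
        (∃ v, v ∈ endpts n (some k) ∧ v ∈ endpts n (some l) ∧ p = P (bb n v) 0) := by
      intro k l p hkl h1 h2
      obtain ⟨h3, h4⟩ := meet_some_some hn hkl h1 h2
      refine ⟨k.succ, ?_, ?_, ?_⟩
      · simp [endpts]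
      · simp only [endpts, Sym2.mem_iff]
        left; apply Fin.ext; rw [Fin.val_succ, Fin.val_castSucc]; exact h3.symm
      · rw [h4, Fin.val_succ]
    intro e f p hef hpe hpf
    rcases e with _ | k <;> rcases f with _ | l
    · exact absurd rfl hef
    · rcases key l p hpe hpf with h | h
      · exact Or.inl h
      · exact Or.inr h.symm
    · rcases key k p hpf hpe with ⟨v, h1, h2, h3⟩ | h
      · exact Or.inl ⟨v, h2, h1, h3⟩
      · exact Or.inr h
    · rcases lt_trichotomy k l with h | h | h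
      · exact Or.inl (key2 k l p h hpe hpf)
      · exact absurd (by rw [h]) hef
      · obtain ⟨v, h1, h2, h3⟩ := key2 l k p h hpf hpe
        exact Or.inl ⟨v, h2, h1, h3⟩
  no_triple := by
    have key : ∀ (k l : Fin (n + 1)) (p : ℂ), k ≠ l → p ∈ arcs n (some k) → p ∈ arcs n (some l) →
        p ∈ Set.range (fun v : Fin (n + 2) => P (bb n v) 0) := by
      intro k l p hkl h1 h2
      rcases lt_or_gt_of_ne hkl with h | h
      · exact ⟨k.succ, by simp only [Fin.val_succ]; exact (meet_some_some hn h h1 h2).2.symm⟩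
      · exact ⟨l.succ, by simp only [Fin.val_succ]; exact (meet_some_some hn h h2 h1).2.symm⟩
    intro e f g p hef hfg heg he hf hg
    rcases e with _ | k
    · rcases f with _ | l
      · exact absurd rfl hef
      · rcases g with _ | m
        · exact absurd rfl heg
        · exact key l m p (fun h => hfg (by rw [h])) hf hg
    · rcases f with _ | l
      · rcases g with _ | m
        · exact absurd rfl hfg
        · exact key k m p (fun h => heg (by rw [h])) he hg
      · exact key k l p (fun h => hef (by rw [h])) he hf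

section final

variable {n : ℕ} (hn : 1 ≤ n)

lemma card_E : Fintype.card (spiral n hn).E = n + 2 := by
  have h : @Fintype.card (spiral n hn).E (spiral n hn).finE
      = @Fintype.card (Option (Fin (n + 1))) inferInstance := rfl
  rw [h]
  simp

lemma drawing_eq : (spiral n hn).drawing = Dr n := by
  ext z
  constructor
  · rintro (h | ⟨v, hv⟩)
    · rw [Set.mem_iUnion] at h
      obtain ⟨e, he⟩ := h
      change z ∈ arcs n e at he
      rcases e with _ | k
      · obtain ⟨t, ⟨h1, h2⟩, rfl⟩ := he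
        exact ⟨t, h1, h2, Or.inr rfl⟩
      · obtain ⟨x, ⟨h1, h2⟩, rfl⟩ := he
        obtain ⟨f0, f1, f2, f3, f4, f5, f6⟩ := bb_facts hn (show (k:ℕ) ≤ n by omega)
        exact ⟨x, f0.trans h1, h2.trans f5, Or.inl rfl⟩
    · refine ⟨bb n (Fin.val (n := n + 2) v), ?_, ?_, Or.inl hv.symm⟩
      · exact le_min (le_max_right _ _) (by positivity)
      · exact min_le_right _ _
  · rintro ⟨x, h0, h1, h | h⟩
    · left
      rw [Set.mem_iUnion]
      -- find the radial edge
      have hex : ∃ k : ℕ, k ≤ n ∧ bb n k ≤ x ∧ x ≤ bb n (k + 1) := by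
        by_contra hcon
        push Not at hcon
        have hall : ∀ k : ℕ, k ≤ n + 1 → bb n k ≤ x := by
          intro k
          induction k with
          | zero => intro _; rw [bb_zero]; exact h0
          | succ k ih =>
            intro hk
            exact (hcon k (by omega) (ih (by omega))).le
        have h2 := hcon n le_rfl (hall n (by omega))
        rw [bb_last] at h2
        linarith
      obtain ⟨k, hk, h2, h3⟩ := hex
      refine ⟨some ⟨k, by omega⟩, ?_⟩
      change z ∈ arcs n (some ⟨k, by omega⟩)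
      rw [h]
      exact ⟨x, ⟨h2, h3⟩, rfl⟩
    · left
      rw [Set.mem_iUnion]
      refine ⟨none, ?_⟩
      change z ∈ arcs n none
      rw [h]
      exact ⟨x, ⟨h0, h1⟩, rfl⟩

/-- points of the drawing with integral parameter are nodes -/
lemma int_node {m : ℤ} (h0 : 0 ≤ m) (h1 : m ≤ n) : P (m:ℝ) 0 ∈ (spiral n hn).nodes := by
  right
  have hk : m.toNat ≤ n := by omega
  have hmr : ((m.toNat : ℕ) : ℝ) = (m:ℝ) := by
    have : ((m.toNat : ℕ) : ℤ) = m := Int.toNat_of_nonneg h0
    exact_mod_cast this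
  obtain ⟨f0, f1, f2, f3, f4, f5, f6⟩ := bb_facts hn hk
  refine ⟨(none : Option (Fin (n + 1))), (some ⟨m.toNat, by omega⟩ : Option (Fin (n + 1))),
    fun h => absurd h.symm (Option.some_ne_none _), ?_, ?_⟩
  · change P (m:ℝ) 0 ∈ arcs n none
    refine ⟨(m:ℝ), ⟨by exact_mod_cast h0, by exact_mod_cast h1⟩, ?_⟩
    exact P_int m
  · change P (m:ℝ) 0 ∈ arcs n (some ⟨m.toNat, by omega⟩)
    refine ⟨(m:ℝ), ⟨?_, ?_⟩, rfl⟩
    · rw [← hmr]; exact f2
    · rw [← hmr]; exact f3

/-- a point of the drawing that is not a node has non integral parameter -/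
lemma nonnode {e : Option (Fin (n + 1))} {q : ℂ} (hq : q ∈ arcs n e) (hqn : q ∉ (spiral n hn).nodes) :
    q ≠ 0 ∧ 0 ≤ sc q ∧ ∀ k : ℤ, sc q ≠ k := by
  rcases e with _ | k
  · obtain ⟨t, ⟨h1, h2⟩, rfl⟩ := hq
    refine ⟨P_ne_zero _ _, by simp only; rw [sc_P]; exact h1, ?_⟩
    intro m hm
    simp only at hm
    rw [sc_P] at hm
    subst hm
    apply hqn
    have := int_node hn (m := m) (by exact_mod_cast h1) (by exact_mod_cast h2)
    simp only
    rw [P_int]; exact this
  · obtain ⟨x, ⟨h1, h2⟩, rfl⟩ := hq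
    obtain ⟨f0, f1, f2, f3, f4, f5, f6⟩ := bb_facts hn (show (k:ℕ) ≤ n by omega)
    refine ⟨P_ne_zero _ _, by simp only; rw [sc_P]; exact f0.trans h1, ?_⟩
    intro m hm
    simp only at hm
    rw [sc_P] at hm
    subst hm
    apply hqn
    exact int_node hn (m := m) (by exact_mod_cast f0.trans h1) (by exact_mod_cast h2.trans f5)

lemma isFace_iff (F : Set ℂ) : (spiral n hn).IsFace F ↔ ∃ j, j ≤ n ∧ F = U n j := by
  unfold SimpleTopGraph.IsFace
  rw [drawing_eq]
  constructor
  · rintro ⟨z, hz, rfl⟩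
    exact ⟨lev n z, (mem_U hn hz).1, component_eq hn hz⟩
  · rintro ⟨j, hj, rfl⟩
    have hne : (U n j).Nonempty := by
      unfold U
      split_ifs
      · refine ⟨P (-1) 0, Or.inl ⟨P_ne_zero _ _, by rw [sc_P]; norm_num⟩⟩
      · exact ⟨0, Or.inl (Metric.mem_ball_self (Real.exp_pos _))⟩
      · have hpi : (0:ℝ) < π := Real.pi_pos
        refine ⟨P j π, ⟨((j:ℝ), π), ⟨hpi, by simp only; linarith, ?_, ?_⟩, rfl⟩⟩
        · have : π / (2 * π) = 1 / 2 := by field_simp
          simp only; rw [this]; linarith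
        · have : π / (2 * π) = 1 / 2 := by field_simp
          simp only; rw [this]; linarith
    obtain ⟨z, hz⟩ := hne
    refine ⟨z, U_subset hj hz, ?_⟩
    rw [component_eq hn (U_subset hj hz), lev_U hj hz]

/-- the `j`-th face -/
noncomputable def face (j : Fin (n + 1)) : {F : Set ℂ // (spiral n hn).IsFace F} :=
  ⟨U n j, (isFace_iff hn _).mpr ⟨j, by omega, rfl⟩⟩

lemma face_surj : Function.Surjective (face hn) := by
  rintro ⟨F, hF⟩
  obtain ⟨j, hj, rfl⟩ := (isFace_iff hn F).mp hF
  exact ⟨⟨j, by omega⟩, rfl⟩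

include hn in
lemma U_inj {i j : ℕ} (hi : i ≤ n) (hj : j ≤ n) (h : U n i = U n j) : i = j := by
  obtain ⟨z, hz, hFz⟩ := (isFace_iff hn (U n i)).mpr ⟨i, hi, rfl⟩
  have hzi : z ∈ U n i := by rw [hFz]; exact mem_connectedComponentIn hz
  have hzj : z ∈ U n j := by rw [← h]; exact hzi
  rw [← lev_U hi hzi, ← lev_U hj hzj]

/-- consecutive faces are adjacent -/
lemma adj_succ {j : ℕ} (hj : j < n) :
    (spiral n hn).dual.Adj (face hn ⟨j, by omega⟩) (face hn ⟨j + 1, by omega⟩) := by
  have hpi : (0:ℝ) < π := Real.pi_pos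
  have hjn : (j:ℝ) + 1 ≤ n := by exact_mod_cast hj
  have hj0 : (0:ℝ) ≤ j := by positivity
  refine ⟨?_, ?_⟩
  · intro h
    have h1 : U n j = U n (j + 1) := congrArg Subtype.val h
    have := U_inj hn (by omega) (by omega) h1
    omega
  · set q : ℂ := P ((j:ℝ) + 1 / 2) (2 * π * ((j:ℝ) + 1 / 2)) with hq
    have hqa : q ∈ arcs n none := ⟨(j:ℝ) + 1 / 2, ⟨by linarith, by linarith⟩, rfl⟩
    have hnotint : ∀ m : ℤ, (j:ℝ) + 1 / 2 ≠ m := by
      intro m hm
      have a1 : ((j:ℤ):ℝ) < m := by push_cast; linarith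
      have a2 : (m:ℝ) < ((j:ℤ):ℝ) + 1 := by push_cast; linarith
      have b1 : (j:ℤ) < m := by exact_mod_cast a1
      have b2 : m < (j:ℤ) + 1 := by exact_mod_cast a2
      omega
    have hqn : q ∉ (spiral n hn).nodes := by
      rintro (⟨v, hv⟩ | ⟨e, f, hef, he, hf⟩)
      · change P (bb n (Fin.val (n := n + 2) v)) 0 = q at hv
        obtain ⟨_, m, hm⟩ := meet hv
        exact hnotint m hm
      · change q ∈ arcs n e at he
        change q ∈ arcs n f at hf
        have key : ∀ k : Fin (n + 1), q ∈ arcs n (some k) → False := by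
          rintro k ⟨x, _, hx⟩
          obtain ⟨_, m, hm⟩ := meet hx
          exact hnotint m hm
        rcases e with _ | k
        · rcases f with _ | l
          · exact hef rfl
          · exact key l hf
        · exact key k he
    refine ⟨connectedComponentIn ((spiral n hn).arc none \ (spiral n hn).nodes) q,
      ⟨none, q, ⟨hqa, hqn⟩, rfl⟩, ?_⟩
    have hmain : ∀ z ∈ connectedComponentIn ((spiral n hn).arc none \ (spiral n hn).nodes) q,
        z ∈ frontier (U n j) ∧ z ∈ frontier (U n (j + 1)) := by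
      intro z hz
      set C := connectedComponentIn ((spiral n hn).arc none \ (spiral n hn).nodes) q with hC
      have hCsub : C ⊆ (spiral n hn).arc none \ (spiral n hn).nodes := connectedComponentIn_subset _ _
      have hCpre : IsPreconnected C := isPreconnected_connectedComponentIn
      have hqC : q ∈ C := mem_connectedComponentIn ⟨hqa, hqn⟩
      have hprop : ∀ w ∈ C, w ≠ 0 ∧ 0 ≤ sc w ∧ ∀ k : ℤ, sc w ≠ k := by
        intro w hw
        exact nonnode hn (e := none) (hCsub hw).1 (hCsub hw).2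
      have himg : IsPreconnected (sc '' C) := by
        apply hCpre.image
        intro w hw
        exact (continuousAt_sc (hprop w hw).1).continuousWithinAt
      have hord := himg.ordConnected
      have hscq : sc q = (j:ℝ) + 1 / 2 := by rw [hq, sc_P]
      have hzlt : (j:ℝ) < sc z ∧ sc z < j + 1 := by
        constructor
        · by_contra hcon
          push Not at hcon
          have : (j:ℝ) ∈ sc '' C := hord.out (Set.mem_image_of_mem sc hz) (Set.mem_image_of_mem sc hqC)
            ⟨hcon, by rw [hscq]; linarith⟩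
          obtain ⟨w, hw, hw2⟩ := this
          exact (hprop w hw).2.2 j (by rw [hw2]; push_cast; rfl)
        · by_contra hcon
          push Not at hcon
          have : (j:ℝ) + 1 ∈ sc '' C := hord.out (Set.mem_image_of_mem sc hqC) (Set.mem_image_of_mem sc hz)
            ⟨by rw [hscq]; linarith, hcon⟩
          obtain ⟨w, hw, hw2⟩ := this
          exact (hprop w hw).2.2 (j + 1) (by rw [hw2]; push_cast; rfl)
      obtain ⟨t, _, rfl⟩ := (hCsub hz).1
      simp only at hzlt ⊢
      rw [sc_P] at hzlt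
      exact turn_frontier hj hzlt.1 hzlt.2
    exact ⟨fun z hz => (hmain z hz).1, fun z hz => (hmain z hz).2⟩

/-- adjacent faces have levels differing by at most one -/
lemma adj_lev {i j : Fin (n + 1)} (h : (spiral n hn).dual.Adj (face hn i) (face hn j)) :
    (i:ℕ) ≤ j + 1 ∧ (j:ℕ) ≤ i + 1 := by
  obtain ⟨_, σ, ⟨e, q, hq, rfl⟩, h1, h2⟩ := h
  have hqσ : q ∈ connectedComponentIn ((spiral n hn).arc e \ (spiral n hn).nodes) q :=
    mem_connectedComponentIn hq
  have hq1 : q ∈ closure (U n i) := frontier_subset_closure (h1 hqσ)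
  have hq2 : q ∈ closure (U n j) := frontier_subset_closure (h2 hqσ)
  obtain ⟨g1, g2, g3⟩ := nonnode hn (e := e) hq.1 hq.2
  obtain ⟨a, ha⟩ := lev_osc (n := n) g1 g2 g3
  have k1 : ∃ z, (a ≤ lev n z ∧ lev n z ≤ a + 1) ∧ z ∈ U n i :=
    ((mem_closure_iff_frequently.mp hq1).and_eventually ha).exists.imp (fun z hz => ⟨hz.2, hz.1⟩)
  have k2 : ∃ z, (a ≤ lev n z ∧ lev n z ≤ a + 1) ∧ z ∈ U n j :=
    ((mem_closure_iff_frequently.mp hq2).and_eventually ha).exists.imp (fun z hz => ⟨hz.2, hz.1⟩)
  obtain ⟨z1, hz1, hz1'⟩ := k1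
  obtain ⟨z2, hz2, hz2'⟩ := k2
  rw [lev_U (by omega) hz1'] at hz1
  rw [lev_U (by omega) hz2'] at hz2
  omega

/-- the level of a face -/
noncomputable def lf (F : {F : Set ℂ // (spiral n hn).IsFace F}) : Fin (n + 1) :=
  (face_surj hn F).choose

lemma face_lf (F : {F : Set ℂ // (spiral n hn).IsFace F}) : face hn (lf hn F) = F :=
  (face_surj hn F).choose_spec

lemma lf_face (j : Fin (n + 1)) : lf hn (face hn j) = j := by
  have h := face_lf hn (face hn j)
  have h1 := congrArg Subtype.val h
  exact Fin.ext (U_inj hn (by omega) (by omega) h1)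

lemma walk_lev {F F' : {F : Set ℂ // (spiral n hn).IsFace F}} (w : (spiral n hn).dual.Walk F F') :
    ((lf hn F' : ℕ)) ≤ lf hn F + w.length := by
  induction w with
  | nil => simp
  | @cons A B C h w ih =>
    have h' : (spiral n hn).dual.Adj (face hn (lf hn A)) (face hn (lf hn B)) := by
      rw [face_lf, face_lf]; exact h
    have := adj_lev hn h'
    rw [SimpleGraph.Walk.length_cons]
    omega

lemma dual_connected : (spiral n hn).dual.Connected := by
  have hreach : ∀ j : ℕ, ∀ hj : j < n + 1, (spiral n hn).dual.Reachable (face hn ⟨0, by omega⟩) (face hn ⟨j, hj⟩) := by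
    intro j
    induction j with
    | zero => intro _; exact SimpleGraph.Reachable.refl _
    | succ j ih =>
      intro hj
      exact (ih (by omega)).trans (adj_succ hn (by omega)).reachable
  have hr : ∀ F, (spiral n hn).dual.Reachable (face hn ⟨0, by omega⟩) F := by
    intro F
    rw [← face_lf hn F]
    exact hreach _ _
  have : Nonempty {F : Set ℂ // (spiral n hn).IsFace F} := ⟨face hn ⟨0, by omega⟩⟩
  exact SimpleGraph.Connected.mk (fun u v => (hr u).symm.trans (hr v))

theorem le_diam : n ≤ (spiral n hn).dual.diam := by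
  have hc := dual_connected hn
  have hfin : Finite {F : Set ℂ // (spiral n hn).IsFace F} := Finite.of_surjective _ (face_surj hn)
  have : Nonempty {F : Set ℂ // (spiral n hn).IsFace F} := ⟨face hn ⟨0, by omega⟩⟩
  have htop := SimpleGraph.connected_iff_ediam_ne_top.mp hc
  have h1 := SimpleGraph.dist_le_diam htop (u := face hn ⟨0, by omega⟩) (v := face hn ⟨n, by omega⟩)
  obtain ⟨w, hw⟩ := hc.exists_walk_length_eq_dist (face hn ⟨0, by omega⟩) (face hn ⟨n, by omega⟩)
  have h2 := walk_lev hn w
  rw [lf_face, lf_face] at h2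
  simp only at h2
  omega

lemma graph_connected : (spiral n hn).graph.Connected := by
  have hadj : ∀ k : ℕ, ∀ hk : k < n + 1, (spiral n hn).graph.Adj (⟨k, by omega⟩ : Fin (n + 2)) (⟨k + 1, by omega⟩ : Fin (n + 2)) := by
    intro k hk
    exact ⟨some ⟨k, hk⟩, rfl⟩
  have hreach : ∀ j : ℕ, ∀ hj : j < n + 2, (spiral n hn).graph.Reachable (⟨0, by omega⟩ : Fin (n + 2)) (⟨j, hj⟩ : Fin (n + 2)) := by
    intro j
    induction j with
    | zero => intro _; exact SimpleGraph.Reachable.refl _
    | succ j ih =>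
      intro hj
      exact (ih (by omega)).trans (hadj j (by omega)).reachable
  have hr : ∀ v : Fin (n + 2), (spiral n hn).graph.Reachable (⟨0, by omega⟩ : Fin (n + 2)) v := fun v => hreach v v.isLt
  have : Nonempty (spiral n hn).V := ⟨(⟨0, by omega⟩ : Fin (n + 2))⟩
  exact SimpleGraph.Connected.mk (fun u v => (hr u).symm.trans (hr v))

end final

/-- For every `c < 1` there is a (connected) simple topological graph `G` such that the dual of its
planarization has diameter larger than `c |E(G)|`. -/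
theorem result : ∀ c : ℝ, c < 1 → ∃ T : SimpleTopGraph, T.graph.Connected ∧ T.dual.Connected ∧
    c * (Fintype.card T.E : ℝ) < (T.dual.diam : ℝ) := by
  intro c hc
  obtain ⟨N, hN⟩ := exists_nat_gt (2 / (1 - c) : ℝ)
  have h1c : 0 < 1 - c := by linarith
  set n := N + 1 with hn'
  have hn : 1 ≤ n := by omega
  refine ⟨spiral n hn, graph_connected hn, dual_connected hn, ?_⟩
  have h1 : (n:ℝ) ≤ (spiral n hn).dual.diam := by exact_mod_cast le_diam hn
  rw [card_E hn]
  rw [div_lt_iff₀ h1c] at hN
  have h2 : (N:ℝ) ≤ n := by rw [hn']; push_cast; linarith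
  have h3 : 2 < n * (1 - c) := lt_of_lt_of_le hN (mul_le_mul_of_nonneg_right h2 h1c.le)
  push_cast
  nlinarith

end Pool.Agent.Results.MP_24d225_co.Spiral
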